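import Pool.Agent.Lib.MP_d4b40b_lc.Main

set_option autoImplicit false

namespace Pool.Agent.Results.MP_d4b40b_lc.AlephOmega

open Pool.Agent.Lib.helper81 Pool.Agent.Lib.MP_fcebdf_lc Pool.Agent.Lib.MP_d4b40b_lc

/-- From a measurable cardinal `|K|` and an increasing sequence of `|K|`-supercompact cardinals
below it: a well-founded model of ZFC in which aleph omega is a strong limit, its power set has
size above aleph omega + 1, its ultrafilter number is aleph omega + 1, and aleph omega + 2 has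
the tree property. -/
theorem result (K : Type) (U : Ultrafilter K) (hU : ∀ x, {x} ∉ U)
    (hc : CardinalInterFilter (U : Filter K) (Cardinal.mk K)) (κ : ℕ → Cardinal.{0})
    (h0 : Cardinal.aleph0 < κ 0) (h1 : StrictMono κ) (h2 : ∀ n, κ n < Cardinal.mk K)
    (h3 : ∀ n, ∃ W : Ultrafilter (Set K), SC (κ n) W) :
    ∃ (M : Type) (E : M → M → Prop), IsZF E ∧ Choice E ∧ WellFounded E ∧
      ∃ (a : ℕ → M) (k k1 k2 : M), Omega E (a 0) ∧ (∀ n, Next E (a n) (a (n + 1))) ∧
        (∀ x, E x k ↔ ∃ n, E x (a n)) ∧ Next E k k1 ∧ Next E k1 k2 ∧ StrongLimit E k ∧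
        (∀ y, Pow E y k → ¬ Le E y k1) ∧ UNum E k k1 ∧ TP E k2 :=
  main K U hU hc κ h0 h1 h2 h3

end Pool.Agent.Results.MP_d4b40b_lc.AlephOmega
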