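import Pool.Agent.Lib.MP_d4b40b_lc.W.Asm
import Pool.Agent.Lib.MP_d4b40b_lc.W.Many

set_option autoImplicit false

namespace Pool.Agent.Results.MP_d4b40b_lc.AlephOmega1

open Pool.Agent.Lib.helper81 Pool.Agent.Lib.MP_fcebdf_lc Pool.Agent.Lib.MP_d4b40b_lc

/-- From a measurable cardinal `|K|` and uncountably many `|K|`-supercompact cardinals below it:
a well-founded model of ZFC in which aleph omega one is a strong limit, its power set has size
above its successor, its ultrafilter number is its successor, and its double successor has the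
tree property. -/
theorem result (K : Type) (U : Ultrafilter K) (hU : ∀ x, {x} ∉ U)
    (hc : CardinalInterFilter (U : Filter K) (Cardinal.mk K)) (T : Set Cardinal.{0})
    (hT : ¬ T.Countable)
    (h : ∀ c ∈ T, Cardinal.aleph0 < c ∧ c < Cardinal.mk K ∧ ∃ W : Ultrafilter (Set K), SC c W) :
    ∃ (M : Type) (E : M → M → Prop), IsZF E ∧ Choice E ∧ WellFounded E ∧
      ∃ k k1 k2 : M, W.AlephW1 E k ∧ Next E k k1 ∧ Next E k1 k2 ∧ StrongLimit E k ∧
        (∀ y, Pow E y k → ¬ Le E y k1) ∧ UNum E k k1 ∧ TP E k2 :=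
  W.main_of (fun _ _ => W.many) K U hU hc T hT h

end Pool.Agent.Results.MP_d4b40b_lc.AlephOmega1
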